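import Mathlib
import Pool.Agent.Lib.MP_ec2ab1_pr_h18.Sdpi

set_option autoImplicit false

/-!
# Strong data processing for the Gaussian channel (the entropy power inequality with one
Gaussian summand): `(v + c) D(U + W_c ‖ N(0, v + c)) ≤ v D(U ‖ N(0, v))`

The relative entropy with respect to a product is supermodular in the set of coordinates.
Applied to an orthogonal frame of `(U, G₁, G₂)` this says that
`l ↦ D(sqrt l U + sqrt (1 - l) G ‖ N(0, v))` is midpoint convex.
-/

namespace Pool.Agent.Lib.GRA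

open MeasureTheory ProbabilityTheory InformationTheory
open Pool.Agent.Lib.MP_ec2ab1_pr_h18
open scoped NNReal ENNReal

/-- chain rule, first coordinate first -/
theorem kl_fst {α β : Type*} [MeasurableSpace α] [MeasurableSpace β] [StandardBorelSpace β]
    [Nonempty β] (ω : Measure (α × β)) [IsProbabilityMeasure ω] (P : Measure α)
    [IsProbabilityMeasure P] (R : Measure β) [IsProbabilityMeasure R] :
    klDiv ω (P.prod R) = klDiv ω.fst P + klDiv ω (ω.fst.prod R) := by
  have hd : ω.fst ⊗ₘ ω.condKernel = ω := ω.disintegrate ω.condKernel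
  conv_lhs => rw [← hd]
  conv_rhs => rw [← hd]
  rw [hd]
  rw [← Measure.compProd_const, ← Measure.compProd_const]
  have h := klDiv_compProd_eq_add ω.fst P ω.condKernel (Kernel.const α R)
  rw [hd] at h
  exact h

/-- supermodularity of the divergence with respect to a product -/
theorem kl_super {α β γ : Type*} [MeasurableSpace α] [MeasurableSpace β] [MeasurableSpace γ]
    [StandardBorelSpace γ] [Nonempty γ]
    (ω : Measure ((α × β) × γ)) [IsProbabilityMeasure ω] (P : Measure α) [IsProbabilityMeasure P]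
    (Q : Measure β) [IsProbabilityMeasure Q] (R : Measure γ) [IsProbabilityMeasure R] :
    klDiv (ω.map Prod.fst) (P.prod Q) + klDiv (ω.map fun x => (x.1.1, x.2)) (P.prod R) ≤
      klDiv ω ((P.prod Q).prod R) + klDiv (ω.map fun x => x.1.1) P := by
  have hm : Measurable (fun x : (α × β) × γ => (x.1.1, x.2)) := by fun_prop
  have hp : IsProbabilityMeasure (ω.map fun x => (x.1.1, x.2)) :=
    Measure.isProbabilityMeasure_map hm.aemeasurable
  have e13 : (ω.map fun x => (x.1.1, x.2)).fst = ω.map fun x => x.1.1 := by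
    rw [Measure.fst, Measure.map_map measurable_fst hm]
    rfl
  have e12 : (ω.fst.prod R).map (fun x : (α × β) × γ => (x.1.1, x.2)) =
      (ω.map fun x => x.1.1).prod R := by
    have h := Measure.map_prod_map ω.fst R (measurable_fst : Measurable (Prod.fst : α × β → α))
      (measurable_id : Measurable (id : γ → γ))
    rw [Measure.map_id, Measure.fst, Measure.map_map measurable_fst measurable_fst] at h
    rw [show (fun x : (α × β) × γ => (x.1.1, x.2)) = Prod.map Prod.fst id from rfl, Measure.fst,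
      ← h]
    rfl
  have h1 := kl_fst ω (P.prod Q) R
  have h2 := kl_fst (ω.map fun x => (x.1.1, x.2)) P R
  have h3 := klDiv_map_le ω (ω.fst.prod R) hm
  rw [e13] at h2
  rw [e12] at h3
  rw [h1, h2, ← Measure.fst]
  calc klDiv ω.fst (P.prod Q) + (klDiv (ω.map fun x => x.1.1) P +
        klDiv (ω.map fun x => (x.1.1, x.2)) ((ω.map fun x => x.1.1).prod R))
      ≤ klDiv ω.fst (P.prod Q) + (klDiv (ω.map fun x => x.1.1) P +
        klDiv ω (ω.fst.prod R)) := by gcongr
    _ = _ := by ring

/-- an orthogonal change of two independent normal variables -/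
theorem lin (s r : ℝ≥0) (a b c d : ℝ) (s' r' : ℝ≥0) (h : a * c * s + b * d * r = 0)
    (h1 : (s' : ℝ) = a ^ 2 * s + b ^ 2 * r) (h2 : (r' : ℝ) = c ^ 2 * s + d ^ 2 * r) :
    ((G s).prod (G r)).map (fun p : ℝ × ℝ => (a * p.1 + b * p.2, c * p.1 + d * p.2)) =
      (G s').prod (G r') := by
  have hmar : ∀ (x y : ℝ) (q : ℝ≥0), (q : ℝ) = x ^ 2 * s + y ^ 2 * r →
      ((G s).prod (G r)).map (fun p : ℝ × ℝ => x * p.1 + y * p.2) = G q := by
    intro x y q hq
    have e1 : ((G s).map (x * ·)).prod ((G r).map (y * ·)) =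
        ((G s).prod (G r)).map (Prod.map (x * ·) (y * ·)) :=
      Measure.map_prod_map _ _ (measurable_const_mul x) (measurable_const_mul y)
    have e2 : cv ((G s).map (x * ·)) ((G r).map (y * ·)) =
        ((G s).prod (G r)).map (fun p : ℝ × ℝ => x * p.1 + y * p.2) := by
      rw [cv, e1, Measure.map_map (by fun_prop) (by fun_prop)]
      rfl
    rw [← e2, gaussianReal_map_const_mul, gaussianReal_map_const_mul, mul_zero, mul_zero, cv_G]
    congr 1
    apply NNReal.coe_injective
    rw [hq]
    simp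
  have hL : HasGaussianLaw (fun p : ℝ × ℝ => (a * p.1 + b * p.2, c * p.1 + d * p.2))
      ((G s).prod (G r)) := by
    have hid : HasGaussianLaw (fun p : ℝ × ℝ => p) ((G s).prod (G r)) := by
      constructor
      rw [Measure.map_id']
      infer_instance
    let L : ℝ × ℝ →L[ℝ] ℝ × ℝ :=
      (a • ContinuousLinearMap.fst ℝ ℝ ℝ + b • ContinuousLinearMap.snd ℝ ℝ ℝ).prod
        (c • ContinuousLinearMap.fst ℝ ℝ ℝ + d • ContinuousLinearMap.snd ℝ ℝ ℝ)
    exact hid.map L
  have hcov : cov[fun p : ℝ × ℝ => a * p.1 + b * p.2, fun p : ℝ × ℝ => c * p.1 + d * p.2;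
      (G s).prod (G r)] = 0 := by
    have hX : MemLp (fun p : ℝ × ℝ => p.1) 2 ((G s).prod (G r)) :=
      (memLp_G s).comp_fst (G r)
    have hY : MemLp (fun p : ℝ × ℝ => p.2) 2 ((G s).prod (G r)) :=
      (memLp_G r).comp_snd (G s)
    have hXY : cov[fun p : ℝ × ℝ => p.1, fun p : ℝ × ℝ => p.2; (G s).prod (G r)] = 0 := by
      have h := covariance_fst_snd_prod (memLp_G s) (memLp_G r)
      exact h
    have hYX : cov[fun p : ℝ × ℝ => p.2, fun p : ℝ × ℝ => p.1; (G s).prod (G r)] = 0 := by
      rw [covariance_comm]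
      exact hXY
    have hXX : cov[fun p : ℝ × ℝ => p.1, fun p : ℝ × ℝ => p.1; (G s).prod (G r)] = s := by
      rw [covariance_self (by fun_prop)]
      have h := variance_id_map (μ := (G s).prod (G r)) (X := (Prod.fst : ℝ × ℝ → ℝ)) (by fun_prop)
      rw [Measure.map_fst_prod, measure_univ, one_smul, variance_id_gaussianReal] at h
      exact h.symm
    have hYY : cov[fun p : ℝ × ℝ => p.2, fun p : ℝ × ℝ => p.2; (G s).prod (G r)] = r := by
      rw [covariance_self (by fun_prop)]
      have h := variance_id_map (μ := (G s).prod (G r)) (X := (Prod.snd : ℝ × ℝ → ℝ)) (by fun_prop)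
      rw [Measure.map_snd_prod, measure_univ, one_smul, variance_id_gaussianReal] at h
      exact h.symm
    have e1 : (fun p : ℝ × ℝ => a * p.1 + b * p.2) =
        (fun p : ℝ × ℝ => a * p.1) + fun p : ℝ × ℝ => b * p.2 := rfl
    have e2 : (fun p : ℝ × ℝ => c * p.1 + d * p.2) =
        (fun p : ℝ × ℝ => c * p.1) + fun p : ℝ × ℝ => d * p.2 := rfl
    rw [e1, e2, covariance_add_left (hX.const_mul a) (hY.const_mul b)
      ((hX.const_mul c).add (hY.const_mul d)),
      covariance_add_right (hX.const_mul a) (hX.const_mul c) (hY.const_mul d),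
      covariance_add_right (hY.const_mul b) (hX.const_mul c) (hY.const_mul d)]
    simp only [covariance_const_mul_left, covariance_const_mul_right, hXY, hYX, hXX, hYY]
    linarith
  have hi := hL.indepFun_of_covariance_eq_zero hcov
  rw [indepFun_iff_map_prod_eq_prod_map_map (by fun_prop) (by fun_prop), hmar a b s' h1,
    hmar c d r' h2] at hi
  exact hi

/-- a linear map acting on the last two of three independent variables -/
theorem assoc1 (P Q R Q' R' : Measure ℝ) [IsProbabilityMeasure P] [IsProbabilityMeasure Q]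
    [IsProbabilityMeasure R] [IsProbabilityMeasure Q'] [IsProbabilityMeasure R']
    (f : ℝ × ℝ → ℝ × ℝ) (hf : Measurable f) (h : (Q.prod R).map f = Q'.prod R') :
    ((P.prod Q).prod R).map
        (fun x : (ℝ × ℝ) × ℝ => ((x.1.1, (f (x.1.2, x.2)).1), (f (x.1.2, x.2)).2)) =
      (P.prod Q').prod R' := by
  have h1 : P.prod (Q.prod R) = ((P.prod Q).prod R).map MeasurableEquiv.prodAssoc :=
    (Measure.prodAssoc_prod (μ := P) (ν := Q) (τ := R)).symm
  have h2 : P.prod (Q'.prod R') = ((P.prod Q').prod R').map MeasurableEquiv.prodAssoc :=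
    (Measure.prodAssoc_prod (μ := P) (ν := Q') (τ := R')).symm
  have h3 : (P.prod (Q.prod R)).map (Prod.map id f) = P.prod (Q'.prod R') := by
    have := Measure.map_prod_map P (Q.prod R) measurable_id hf
    rw [Measure.map_id, h] at this
    exact this.symm
  have hm : Measurable (Prod.map (id : ℝ → ℝ) f) := measurable_id.prodMap hf
  rw [h1, h2, Measure.map_map hm MeasurableEquiv.prodAssoc.measurable] at h3
  have h4 := congrArg (fun ρ => Measure.map (MeasurableEquiv.prodAssoc (α := ℝ) (β := ℝ) (γ := ℝ)).symm ρ) h3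
  beta_reduce at h4
  rw [Measure.map_map MeasurableEquiv.prodAssoc.symm.measurable
    (hm.comp MeasurableEquiv.prodAssoc.measurable),
    Measure.map_map MeasurableEquiv.prodAssoc.symm.measurable MeasurableEquiv.prodAssoc.measurable]
    at h4
  have h5 : ((MeasurableEquiv.prodAssoc (α := ℝ) (β := ℝ) (γ := ℝ)).symm ∘
      (MeasurableEquiv.prodAssoc (α := ℝ) (β := ℝ) (γ := ℝ))) = id := by
    funext x
    simp
  rw [h5, Measure.map_id] at h4
  exact h4

/-- three independent variables, the last two changed linearly and the first two added -/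
theorem addlin (U Q R Q' R' : Measure ℝ) [IsProbabilityMeasure U] [IsProbabilityMeasure Q]
    [IsProbabilityMeasure R] [IsProbabilityMeasure Q'] [IsProbabilityMeasure R']
    (f : ℝ × ℝ → ℝ × ℝ) (hf : Measurable f) (h : (Q.prod R).map f = Q'.prod R') :
    ((U.prod Q).prod R).map
        (fun x : (ℝ × ℝ) × ℝ => (x.1.1 + (f (x.1.2, x.2)).1, (f (x.1.2, x.2)).2)) =
      (cv U Q').prod R' := by
  have h1 := assoc1 U Q R Q' R' f hf h
  have h2 := Measure.map_prod_map (U.prod Q') R'
    (by fun_prop : Measurable fun p : ℝ × ℝ => p.1 + p.2) measurable_id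
  rw [Measure.map_id, ← h1, Measure.map_map (by fun_prop) (by fun_prop)] at h2
  exact h2.symm

/-- three independent variables -/
noncomputable abbrev om (U : Measure ℝ) (t w : ℝ≥0) : Measure ((ℝ × ℝ) × ℝ) :=
  (U.prod (G t)).prod (G w)

/-- the frame `C = U + G₁`, `A = t U - v G₁ + G₂`, `B = t U - v G₁ - G₂` -/
noncomputable def fr3 (v t : ℝ≥0) (h : (v : ℝ) + t ≠ 0) : (ℝ × ℝ) × ℝ ≃ᵐ (ℝ × ℝ) × ℝ where
  toFun x := ((x.1.1 + x.1.2, t * x.1.1 - v * x.1.2 + x.2), t * x.1.1 - v * x.1.2 - x.2)
  invFun y := (((v * y.1.1 + (y.1.2 + y.2) / 2) / (v + t),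
    (t * y.1.1 - (y.1.2 + y.2) / 2) / (v + t)), (y.1.2 - y.2) / 2)
  left_inv x := by
    obtain ⟨⟨u, g⟩, k⟩ := x
    simp only [Prod.mk.injEq]
    refine ⟨⟨?_, ?_⟩, ?_⟩
    · field_simp
      ring
    · field_simp
      ring
    · ring
  right_inv y := by
    obtain ⟨⟨u, g⟩, k⟩ := y
    simp only [Prod.mk.injEq]
    refine ⟨⟨?_, ?_⟩, ?_⟩
    · field_simp
      ring
    · field_simp
      ring
    · field_simp
      ring
  measurable_toFun := by
    simp only [Equiv.coe_fn_mk]
    fun_prop
  measurable_invFun := by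
    simp only [Equiv.coe_fn_symm_mk]
    fun_prop

/-- the change of two coordinates `(C, A) ↦ ((2 v C + A) / (2 v + t), t C - A)` -/
noncomputable def fr2 (v t : ℝ≥0) (h : 2 * (v : ℝ) + t ≠ 0) : ℝ × ℝ ≃ᵐ ℝ × ℝ where
  toFun x := ((2 * v * x.1 + x.2) / (2 * v + t), t * x.1 - x.2)
  invFun y := (y.1 + y.2 / (2 * v + t), t * (y.1 + y.2 / (2 * v + t)) - y.2)
  left_inv x := by
    obtain ⟨u, g⟩ := x
    simp only [Prod.mk.injEq]
    refine ⟨?_, ?_⟩
    · field_simp
      ring
    · field_simp
      ring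
  right_inv y := by
    obtain ⟨u, g⟩ := y
    simp only [Prod.mk.injEq]
    refine ⟨?_, ?_⟩
    · field_simp
      ring
    · field_simp
      ring
  measurable_toFun := by
    simp only [Equiv.coe_fn_mk]
    fun_prop
  measurable_invFun := by
    simp only [Equiv.coe_fn_symm_mk]
    fun_prop

/-- **Midpoint convexity of the divergence along the Gaussian channel**. -/
theorem mid (U : Measure ℝ) [IsProbabilityMeasure U] (v t s : ℝ≥0) (hv : v ≠ 0) (ht : t ≠ 0)
    (hs : (2 * v + t) * s = v * t) :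
    2 * klDiv (cv U (G s)) (G (v + s)) ≤ klDiv U (G v) + klDiv (cv U (G t)) (G (v + t)) := by
  have hv0 : (0 : ℝ) < v := lt_of_le_of_ne v.2 fun h => hv (NNReal.coe_injective h.symm)
  have ht0 : (0 : ℝ) < t := lt_of_le_of_ne t.2 fun h => ht (NNReal.coe_injective h.symm)
  have hvt : (v : ℝ) + t ≠ 0 := by positivity
  have h2vt : 2 * (v : ℝ) + t ≠ 0 := by positivity
  have hs' : (2 * (v : ℝ) + t) * s = v * t := by
    have := congrArg (fun x : ℝ≥0 => (x : ℝ)) hs
    push_cast at this
    exact this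
  have hsv : (s : ℝ) = v * t / (2 * v + t) := by
    rw [eq_div_iff h2vt, mul_comm]
    exact hs'
  set w : ℝ≥0 := v * t * (v + t) with hw
  have hwr : (w : ℝ) = v * t * (v + t) := by
    rw [hw]
    push_cast
    ring
  set r : ℝ≥0 := (t + v) ^ 2 * t + w with hr
  have hrr : (r : ℝ) = (t + v) ^ 2 * t + w := by
    rw [hr]
    push_cast
    ring
  -- the reference law in the frame
  have hL1 := lin v t 1 1 t (-v) (v + t) w (by ring) (by push_cast; ring) (by rw [hwr]; ring)
  have hL2 := lin w w 1 1 1 (-1) (2 * w) (2 * w) (by ring) (by push_cast; ring) (by push_cast; ring)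
  have hL3 := lin t w (v / (2 * v + t)) (1 / (2 * v + t)) (t + v) (-1) s r
    (by rw [hwr]; field_simp; ring) (by rw [hwr, hsv]; field_simp; ring) (by rw [hrr]; ring)
  -- the law of (C, A)
  have hm12 : Measurable (fun x : (ℝ × ℝ) × ℝ => (x.1.1 + x.1.2, t * x.1.1 - v * x.1.2 + x.2)) := by
    fun_prop
  have hm3 := (fr3 v t hvt).measurable
  have hp : ∀ V : Measure ℝ, IsProbabilityMeasure V →
      IsProbabilityMeasure ((om V t w).map (fr3 v t hvt)) := fun V _ =>
    Measure.isProbabilityMeasure_map hm3.aemeasurable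
  have h12 : ∀ V : Measure ℝ, IsProbabilityMeasure V →
      ((om V t w).map (fr3 v t hvt)).map Prod.fst =
        (om V t w).map (fun x : (ℝ × ℝ) × ℝ => (x.1.1 + x.1.2, t * x.1.1 - v * x.1.2 + x.2)) := by
    intro V _
    rw [Measure.map_map measurable_fst hm3]
    rfl
  have hneg : (G w).map (fun x => -x) = G w := by
    rw [gaussianReal_map_neg, neg_zero]
  have h13 : ∀ V : Measure ℝ, IsProbabilityMeasure V →
      ((om V t w).map (fr3 v t hvt)).map (fun x : (ℝ × ℝ) × ℝ => (x.1.1, x.2)) =
        (om V t w).map (fun x : (ℝ × ℝ) × ℝ => (x.1.1 + x.1.2, t * x.1.1 - v * x.1.2 + x.2)) := by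
    intro V _
    have h5 : om V t w = (om V t w).map (Prod.map id fun x : ℝ => -x) := by
      have := Measure.map_prod_map (V.prod (G t)) (G w) measurable_id
        (measurable_neg : Measurable fun x : ℝ => -x)
      rw [Measure.map_id, hneg] at this
      exact this
    rw [Measure.map_map (by fun_prop) hm3]
    conv_lhs => rw [h5]
    rw [Measure.map_map ((by fun_prop : Measurable fun x : (ℝ × ℝ) × ℝ => (x.1.1, x.2)).comp hm3)
      (measurable_id.prodMap measurable_neg)]
    congr 1
    funext x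
    obtain ⟨⟨u, g⟩, k⟩ := x
    simp only [Function.comp, Prod.map, fr3, MeasurableEquiv.coe_mk, Equiv.coe_fn_mk, id,
      sub_neg_eq_add]
  have href : (om (G v) t w).map (fr3 v t hvt) =
      ((G (v + t)).prod (G (2 * w))).prod (G (2 * w)) := by
    have a1 : (om (G v) t w).map (Prod.map (fun p : ℝ × ℝ => (1 * p.1 + 1 * p.2, t * p.1 + -v * p.2))
        id) = ((G (v + t)).prod (G w)).prod (G w) := by
      have := Measure.map_prod_map ((G v).prod (G t)) (G w)
        (by fun_prop : Measurable (fun p : ℝ × ℝ => (1 * p.1 + 1 * p.2, (t : ℝ) * p.1 + -(v : ℝ) * p.2)))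
        measurable_id
      rw [Measure.map_id, hL1] at this
      exact this.symm
    have a2 := assoc1 (G (v + t)) (G w) (G w) (G (2 * w)) (G (2 * w))
      (fun p : ℝ × ℝ => (1 * p.1 + 1 * p.2, 1 * p.1 + -1 * p.2)) (by fun_prop) hL2
    rw [← a2, ← a1, Measure.map_map (by fun_prop)
      ((by fun_prop : Measurable (fun p : ℝ × ℝ =>
        (1 * p.1 + 1 * p.2, (t : ℝ) * p.1 + -(v : ℝ) * p.2))).prodMap measurable_id)]
    congr 1
    funext x
    obtain ⟨⟨u, g⟩, k⟩ := x
    simp only [Function.comp, Prod.map, fr3, MeasurableEquiv.coe_mk, Equiv.coe_fn_mk, id,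
      Prod.mk.injEq]
    refine ⟨⟨?_, ?_⟩, ?_⟩ <;> ring
  -- the two-dimensional divergence
  have hk : ∀ V : Measure ℝ, IsProbabilityMeasure V →
      ((om V t w).map
        (fun x : (ℝ × ℝ) × ℝ => (x.1.1 + x.1.2, t * x.1.1 - v * x.1.2 + x.2))).map
          (fr2 v t h2vt) = (cv V (G s)).prod (G r) := by
    intro V _
    have a := addlin V (G t) (G w) (G s) (G r)
      (fun p : ℝ × ℝ => (v / (2 * v + t) * p.1 + 1 / (2 * v + t) * p.2, (t + v) * p.1 + -1 * p.2))
      (by fun_prop) hL3
    rw [← a, Measure.map_map (fr2 v t h2vt).measurable hm12]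
    congr 1
    funext x
    obtain ⟨⟨u, g⟩, k⟩ := x
    simp only [Function.comp, fr2, MeasurableEquiv.coe_mk, Equiv.coe_fn_mk, Prod.mk.injEq]
    refine ⟨?_, ?_⟩
    · field_simp
      ring
    · ring
  have hD : klDiv ((om U t w).map
        (fun x : (ℝ × ℝ) × ℝ => (x.1.1 + x.1.2, t * x.1.1 - v * x.1.2 + x.2)))
      ((G (v + t)).prod (G (2 * w))) = klDiv (cv U (G s)) (G (v + s)) := by
    have e : (G (v + t)).prod (G (2 * w)) = (om (G v) t w).map
        (fun x : (ℝ × ℝ) × ℝ => (x.1.1 + x.1.2, t * x.1.1 - v * x.1.2 + x.2)) := by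
      rw [← h12 (G v) inferInstance, href, Measure.map_fst_prod, measure_univ, one_smul]
    have hp1 : IsProbabilityMeasure ((om U t w).map
        (fun x : (ℝ × ℝ) × ℝ => (x.1.1 + x.1.2, t * x.1.1 - v * x.1.2 + x.2))) :=
      Measure.isProbabilityMeasure_map hm12.aemeasurable
    have hp2 : IsProbabilityMeasure ((om (G v) t w).map
        (fun x : (ℝ × ℝ) × ℝ => (x.1.1 + x.1.2, t * x.1.1 - v * x.1.2 + x.2))) :=
      Measure.isProbabilityMeasure_map hm12.aemeasurable
    rw [e, ← kl_map_equiv _ _ (fr2 v t h2vt), hk U inferInstance, hk (G v) inferInstance,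
      kl_prod_right, cv_G]
  have hpU := hp U inferInstance
  have hsup := kl_super ((om U t w).map (fr3 v t hvt)) (G (v + t)) (G (2 * w)) (G (2 * w))
  rw [h12 U inferInstance, h13 U inferInstance, hD, ← two_mul, ← href, kl_map_equiv,
    kl_prod_right, kl_prod_right] at hsup
  have h1 : ((om U t w).map (fr3 v t hvt)).map (fun x : (ℝ × ℝ) × ℝ => x.1.1) = cv U (G t) := by
    rw [Measure.map_map (by fun_prop) hm3]
    have := Measure.map_fst_prod (μ := U.prod (G t)) (ν := G w)
    rw [measure_univ, one_smul] at this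
    conv_rhs => rw [cv, ← this]
    rw [Measure.map_map (by fun_prop) measurable_fst]
    rfl
  rw [h1] at hsup
  exact hsup

/-- real analysis: a bounded function on `(0,1]` with `F ((1 + x)/2) ≤ (F x + F 1)/2` and
`F (x/2) ≤ F x / 2` is below `x F 1` -/
theorem le_mul_one (F : ℝ → ℝ) (h1 : ∀ x, 0 < x → x ≤ 1 → F x ≤ F 1)
    (h2 : ∀ x, 0 < x → x < 1 → 2 * F ((1 + x) / 2) ≤ F 1 + F x)
    (h3 : ∀ x, 0 < x → x ≤ 1 → 2 * F (x / 2) ≤ F x) (h0 : 0 ≤ F 1) (x : ℝ) (hx : 0 < x)
    (hx1 : x ≤ 1) : F x ≤ x * F 1 := by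
  have key : ∀ n : ℕ, ∀ y : ℝ, 0 < y → y ≤ 1 → F y ≤ y * F 1 + (1 / 2) ^ n * F 1 := by
    intro n
    induction n with
    | zero =>
      intro y hy hy1
      have := h1 y hy hy1
      have := mul_nonneg hy.le h0
      simp only [pow_zero, one_mul]
      linarith
    | succ n ih =>
      intro y hy hy1
      rcases le_or_gt y (1 / 2) with h | h
      · have a := h3 (2 * y) (by linarith) (by linarith)
        rw [mul_div_cancel_left₀ y (by norm_num : (2 : ℝ) ≠ 0)] at a
        have b := ih (2 * y) (by linarith) (by linarith)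
        rw [pow_succ]
        linarith
      · rcases eq_or_lt_of_le hy1 with h' | h'
        · rw [h']
          have : 0 ≤ (1 / 2 : ℝ) ^ (n + 1) * F 1 := mul_nonneg (by positivity) h0
          linarith
        · have a := h2 (2 * y - 1) (by linarith) (by linarith)
          rw [show (1 + (2 * y - 1)) / 2 = y by ring] at a
          have b := ih (2 * y - 1) (by linarith) (by linarith)
          rw [pow_succ]
          linarith
  have hl : Filter.Tendsto (fun n : ℕ => x * F 1 + (1 / 2 : ℝ) ^ n * F 1) Filter.atTop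
      (nhds (x * F 1 + 0 * F 1)) :=
    (tendsto_pow_atTop_nhds_zero_of_lt_one (by norm_num) (by norm_num)).mul_const _ |>.const_add _
  have := ge_of_tendsto' hl fun n => key n x hx hx1
  linarith

theorem cv_zero (U : Measure ℝ) [IsProbabilityMeasure U] : cv U (G 0) = U := by
  rw [cv_eq_conv, G, gaussianReal_zero_var, Measure.conv_dirac_zero]

theorem cv_cv (U : Measure ℝ) [IsProbabilityMeasure U] (a b : ℝ≥0) :
    cv (cv U (G a)) (G b) = cv U (G (a + b)) := by
  rw [← cv_G a b]
  simp only [cv_eq_conv]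
  exact Measure.conv_assoc _ _ _

/-- **Strong data processing for the Gaussian channel** (the entropy power inequality with one
Gaussian summand, linearised at every ratio): no hypothesis on `U`. -/
theorem epi (U : Measure ℝ) [IsProbabilityMeasure U] (v c : ℝ≥0) (hv : v ≠ 0) :
    (v + c : ℝ≥0) * klDiv (cv U (G c)) (G (v + c)) ≤ v * klDiv U (G v) := by
  have hv0 : (0 : ℝ) < v := lt_of_le_of_ne v.2 fun h => hv (NNReal.coe_injective h.symm)
  by_cases hfin : klDiv U (G v) = ∞
  · rw [hfin, ENNReal.mul_top (by simpa using hv)]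
    exact le_top
  let A : ℝ → ℝ≥0 := fun x => (v / x - v).toNNReal
  let B : ℝ → ℝ≥0 := fun x => (v / x).toNNReal
  have hA : ∀ x : ℝ, 0 < x → x ≤ 1 → ((A x : ℝ≥0) : ℝ) = v / x - v := by
    intro x hx hx1
    refine Real.coe_toNNReal _ ?_
    have : (v : ℝ) ≤ v / x := by
      rw [le_div_iff₀ hx]
      nlinarith
    linarith
  have hB : ∀ x : ℝ, 0 < x → ((B x : ℝ≥0) : ℝ) = v / x := by
    intro x hx
    exact Real.coe_toNNReal _ (by positivity)
  have hAB : ∀ x : ℝ, 0 < x → x ≤ 1 → v + A x = B x := by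
    intro x hx hx1
    apply NNReal.coe_injective
    push_cast
    rw [hA x hx hx1, hB x hx]
    ring
  have hA1 : A 1 = 0 := by
    apply NNReal.coe_injective
    rw [hA 1 one_pos le_rfl]
    simp
  let K : ℝ → ℝ≥0∞ := fun x => klDiv (cv U (G (A x))) (G (B x))
  have hK1 : K 1 = klDiv U (G v) := by
    have hB1 : B 1 = v := by
      have := hAB 1 one_pos le_rfl
      rw [hA1, add_zero] at this
      exact this.symm
    simp only [K, hA1, hB1, cv_zero]
  have ha : ∀ x : ℝ, 0 < x → x ≤ 1 → K x ≤ K 1 := by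
    intro x hx hx1
    have h := kl_cv_le U (G v) (G (A x))
    rw [cv_G, hAB x hx hx1] at h
    rw [hK1]
    exact h
  have hKfin : ∀ x : ℝ, 0 < x → x ≤ 1 → K x ≠ ∞ := fun x hx hx1 =>
    ne_top_of_le_ne_top (by rwa [hK1]) (ha x hx hx1)
  have hb : ∀ x : ℝ, 0 < x → x < 1 → 2 * K ((1 + x) / 2) ≤ K 1 + K x := by
    intro x hx hx1
    have hy0 : 0 < (1 + x) / 2 := by linarith
    have hy1 : (1 + x) / 2 ≤ 1 := by linarith
    have ht : A x ≠ 0 := by
      intro h
      have := hA x hx hx1.le
      rw [h] at this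
      have h2 : (v : ℝ) < v / x := by
        rw [lt_div_iff₀ hx]
        nlinarith
      simp at this
      linarith
    have h := mid U v (A x) (A ((1 + x) / 2)) hv ht (by
      apply NNReal.coe_injective
      push_cast
      rw [hA x hx hx1.le, hA _ hy0 hy1]
      field_simp
      ring)
    rw [hAB x hx hx1.le, hAB _ hy0 hy1] at h
    rw [hK1]
    exact h
  have hc : ∀ x : ℝ, 0 < x → x ≤ 1 → 2 * K (x / 2) ≤ K x := by
    intro x hx hx1
    have h := kl_half (cv U (G (A x))) (B x)
    rw [cv_cv] at h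
    have e1 : A x + B x = A (x / 2) := by
      apply NNReal.coe_injective
      push_cast
      rw [hA x hx hx1, hB x hx, hA (x / 2) (by linarith) (by linarith)]
      field_simp
      ring
    have e2 : 2 * B x = B (x / 2) := by
      apply NNReal.coe_injective
      push_cast
      rw [hB x hx, hB (x / 2) (by linarith)]
      field_simp
    rw [e1, e2] at h
    exact h
  have main := le_mul_one (fun x => (K x).toReal)
    (fun x hx hx1 => ENNReal.toReal_mono (hKfin 1 one_pos le_rfl) (ha x hx hx1))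
    (fun x hx hx1 => by
      have h := ENNReal.toReal_mono (ENNReal.add_ne_top.2 ⟨hKfin 1 one_pos le_rfl,
        hKfin x hx hx1.le⟩) (hb x hx hx1)
      rw [ENNReal.toReal_mul, ENNReal.toReal_add (hKfin 1 one_pos le_rfl)
        (hKfin x hx hx1.le)] at h
      simpa using h)
    (fun x hx hx1 => by
      have h := ENNReal.toReal_mono (hKfin x hx hx1) (hc x hx hx1)
      rw [ENNReal.toReal_mul] at h
      simpa using h)
    ENNReal.toReal_nonneg
  have hvc : (0 : ℝ) < v + c := by positivity
  set x : ℝ := v / (v + c) with hxdef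
  have hx0 : 0 < x := by positivity
  have hx1 : x ≤ 1 := by
    rw [hxdef, div_le_one hvc]
    have := c.2
    linarith
  have hAx : A x = c := by
    apply NNReal.coe_injective
    rw [hA x hx0 hx1, hxdef]
    field_simp
    ring
  have hBx : B x = v + c := by
    apply NNReal.coe_injective
    rw [hB x hx0, hxdef]
    push_cast
    field_simp
  have hfinal := main x hx0 hx1
  beta_reduce at hfinal
  have hKx : K x = klDiv (cv U (G c)) (G (v + c)) := by
    simp only [K, hAx, hBx]
  have hf1 : klDiv (cv U (G c)) (G (v + c)) ≠ ∞ := by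
    rw [← hKx]
    exact hKfin x hx0 hx1
  rw [hK1, hKx, hxdef, div_mul_eq_mul_div, le_div_iff₀ hvc] at hfinal
  rw [← ENNReal.ofReal_toReal hf1, ← ENNReal.ofReal_toReal hfin, ← ENNReal.ofReal_coe_nnreal (p := v),
    ← ENNReal.ofReal_coe_nnreal (p := v + c), ← ENNReal.ofReal_mul (by positivity), ← ENNReal.ofReal_mul (by positivity)]
  apply ENNReal.ofReal_le_ofReal
  push_cast
  linarith

end Pool.Agent.Lib.GRA
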